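import Pool.Agent.Lib.helper3.MeanAl

namespace Pool.Agent.Results.MP_a9e7a9_an.FixedPoints

open Pool.Agent.Lib.helper3.MeanAl

/-- For `λ ∈ [0, 1/2]` the fixed points of the mean `λ`-Aluthge transform are exactly the
quasi-normal operators. -/
theorem result (H : Type*) [NormedAddCommGroup H] [InnerProductSpace ℂ H] [CompleteSpace H]
    (l : ℝ) (hl : l ∈ Set.Icc (0 : ℝ) (1 / 2)) (T V : H →L[ℂ] H) (hV : IsPolar T V) :
    meanAluthge l T V = T ↔ Commute T (star T * T) :=
  fixed_iff hV hl.1 (lt_of_le_of_lt hl.2 (by norm_num))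

end Pool.Agent.Results.MP_a9e7a9_an.FixedPoints
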